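import Pool.Agent.Helper64.FL.StG

/-! Full list for MP_866009_co: basic facts on violations of (CI). -/

set_option autoImplicit false

namespace Pool.Agent.Helper64.FL

open Pool.Agent.Helper64.CT Pool.Agent.Helper64.DT
open Pool.Agent.Helper64.HG (Ovl Model Circ IC HellyCircle ChordModel)

theorem st_CIB (h1 : ST_CNB) : ST_CIB := by
  intro V G
  obtain ⟨hsym, -, -, -, hcomp, -, -⟩ := h1 V G
  have hu : ∀ c x y, Comp G c x y ↔ Cn G (Set.univ ∩ Far G c) x y := by
    intro c x y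
    rw [Set.univ_inter]
    exact hcomp c x y
  refine ⟨?_, ?_, ?_⟩
  · intro h
    unfold CI at h
    rw [not_not] at h
    obtain ⟨v, a, b, c, va, vb, vc, h1, h2, h3⟩ := h
    exact ⟨v, a, b, c, va, vb, vc, Set.mem_univ v, (hu c a b).1 h1, (hu a b c).1 h2,
      (hu b a c).1 h3⟩
  · intro S v a b c h
    have sab := hsym _ _ _ h.ab
    have sbc := hsym _ _ _ h.bc
    have sac := hsym _ _ _ h.ac
    have a1 := h.ab.1
    have b1 := sab.1
    have b2 := h.bc.1
    have c1 := sbc.1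
    have a3 := h.ac.1
    have c3 := sac.1
    have ab : a ≠ b := fun e => b2.2.1 e.symm
    have ac : a ≠ c := a1.2.1
    have bc : b ≠ c := b1.2.1
    refine ⟨⟨h.vb, h.va, h.vc, h.vS, sab.2, h.ac, h.bc⟩,
      ⟨h.va, h.vc, h.vb, h.vS, h.ac, sbc.2, h.ab⟩, ab, ac, bc, ?_, ?_, ?_, a1.1, b1.1, c1.1⟩
    · exact b2.2.2
    · exact c1.2.2
    · exact c3.2.2
  · intro v a b c h hc
    apply hc
    exact ⟨v, a, b, c, h.va, h.vb, h.vc, (hu c a b).2 h.ab, (hu a b c).2 h.bc, (hu b a c).2 h.ac⟩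

end Pool.Agent.Helper64.FL
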