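import Pool.Agent.Helper64.FL.StC

/-! Full list for MP_866009_co: the side of a ray only depends on its component. -/

set_option autoImplicit false

namespace Pool.Agent.Helper64.FL

open Pool.Agent.Helper64.CT Pool.Agent.Helper64.DT
open Pool.Agent.Helper64.HG (Ovl Model Circ IC HellyCircle ChordModel)

theorem phi_be {V : Type} {G : SimpleGraph V} {Q : Set V} {σ : V → Bool} {n : ℕ} {θ : V → ℕ}
    {f : V → Bool} (hL : Lay G Q σ n θ f) {y a b r w : V} (hy : y ∈ Q) (ha : a ∈ Q) (hb : b ∈ Q)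
    (hay : a ≠ y) (hby : b ≠ y) (hab : θ a < θ b) (hBE : BE G Q a b r w) :
    phi σ θ f y a r = phi σ θ f y b w := by
  have h1 : θ a ≠ θ y := fun e => hay (hL.inj ha hy e)
  have h2 : θ b ≠ θ y := fun e => hby (hL.inj hb hy e)
  have h3 := hL.lt y hy
  unfold phi
  rcases hL.be a b r w hBE hab with ⟨e1, e2⟩ | ⟨e1, e2, e3⟩
  · have h4 : decide (θ a < θ y) = decide (θ b < θ y) := by
      rw [decide_eq_decide]
      omega
    rw [h4]
    congr 1
    generalize σ r = s1 at *
    generalize σ w = s2 at *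
    generalize f a = s3 at *
    generalize f b = s4 at *
    revert e2
    cases s1 <;> cases s2 <;> cases s3 <;> cases s4 <;> decide
  · have h4 : decide (θ a < θ y) = true := by
      rw [decide_eq_true_iff]
      omega
    have h5 : decide (θ b < θ y) = false := by
      rw [decide_eq_false_iff_not]
      omega
    rw [h4, h5]
    generalize σ r = s1 at *
    generalize σ w = s2 at *
    generalize f a = s3 at *
    generalize f b = s4 at *
    revert e3
    cases s1 <;> cases s2 <;> cases s3 <;> cases s4 <;> decide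

theorem st_PHI (h1 : ST_RAY) (h2 : ST_CNB) : ST_PHI := by
  intro V G Q σ n θ f hE hL y x x' u u' hy hyx hyx' hu hu' hc
  obtain ⟨-, ray2, ray3, ray4, -, -⟩ := h1 V G Q hE.red.df hE.mx
  obtain ⟨-, -, hmono, -, -, -, -⟩ := h2 V G
  have key : ∃ a r, RayQ G Q a r ∧ a ≠ y ∧ Comp G y u r ∧ phi σ θ f y a r = phi σ θ f y x u ∧
      Cn G (ZZ G Q a a) r u' := by
    refine Comp.ind hc (fun v => ∃ a r, RayQ G Q a r ∧ a ≠ y ∧ Comp G y u r ∧
      phi σ θ f y a r = phi σ θ f y x u ∧ Cn G (ZZ G Q a a) r v) ?_ ?_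
    · refine ⟨x, u, hu, fun e => hyx e.symm, Comp.refl hc.left, rfl, ?_, Relation.ReflTransGen.refl⟩
      refine ⟨hu.2.2, fun q hq hqx _ hqu => hqx ?_⟩
      exact ray2 q x u ⟨hq, hqu, hu.2.2⟩ hu
    · rintro z w hz ⟨a, r, har, hay, hur, hphi, hcn⟩ hw hzw
      have hwQ : w ∉ Q := ray3 y hy w hw
      have huw : Comp G y u w := hz.step hw hzw
      by_cases hb : ∃ b, b ∈ Q ∧ b ≠ a ∧ G.Adj b w
      · obtain ⟨b, hbQ, hba, hbw⟩ := hb
        have hbr : RayQ G Q b w := ⟨hbQ, hbw, hwQ⟩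
        have hby : b ≠ y := by
          rintro rfl
          exact hw.2 hbw
        have hww : ∀ c, w ∈ ZZ G Q c b := fun c =>
          ⟨hwQ, fun q hq _ hqb hqw => hqb (ray2 q b w ⟨hq, hqw, hwQ⟩ hbr)⟩
        have hsub : ZZ G Q a a ⊆ ZZ G Q a b := fun v hv => ⟨hv.1, fun q hq hqa _ => hv.2 q hq hqa hqa⟩
        have hcn' := hmono _ _ r z hsub hcn
        have hBE : BE G Q a b r w :=
          ⟨fun e => hba e.symm, har, hbr, hcn'.1, hcn'.2.tail ⟨hzw, hww a⟩⟩
        have hphi' : phi σ θ f y a r = phi σ θ f y b w := by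
          have hne : θ a ≠ θ b := fun e => hba (hL.inj har.1 hbQ e).symm
          rcases lt_or_gt_of_ne hne with hlt | hlt
          · exact phi_be hL hy har.1 hbQ hay hby hlt hBE
          · exact (phi_be hL hy hbQ har.1 hby hay hlt (ray4 a b r w hBE).1).symm
        exact ⟨b, w, hbr, hby, huw, hphi'.symm.trans hphi, hww b, Relation.ReflTransGen.refl⟩
      · have hwz : w ∈ ZZ G Q a a := ⟨hwQ, fun q hq hqa _ hqw => hb ⟨q, hq, hqa, hqw⟩⟩
        exact ⟨a, r, har, hay, hur, hphi, hcn.1, hcn.2.tail ⟨hzw, hwz⟩⟩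
  obtain ⟨a, r, har, hay, hur, hphi, hcn⟩ := key
  have hmem : u' ∈ ZZ G Q a a := by
    obtain ⟨h3, h4⟩ := hcn
    rcases Relation.ReflTransGen.cases_tail h4 with h5 | ⟨c, _, h5⟩
    · rw [h5]; exact h3
    · exact h5.2
  have hax : x' = a := by
    by_contra hne
    exact hmem.2 x' hu'.1 hne hne hu'.2.1
  subst hax
  have hs : σ r = σ u' := (hE.sg x' r u' y har hu' hy hyx').1 (hur.symm.trans hc)
  rw [← hphi]
  unfold phi
  rw [hs]

end Pool.Agent.Helper64.FL
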